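import Pool.Agent.Strip051.Box.C2
import Pool.Agent.Strip051.Box.S30
import Pool.Agent.Strip051.LB.Fc.F2
import Pool.Agent.Strip051.LB.Fd.F2

/-! # LINE tight chart ChA00U_pm_012b -/

namespace Pool.Agent.Strip051.LB.ChA00U_pm_012b

open Pool.Agent.Strip051.Box Pool.Agent.Strip051.Box2

open Pool.Agent.Strip051.LB.Fd Pool.Agent.Strip051.LB.Fd.F2 Pool.Agent.Strip051.LB.Fc Pool.Agent.Strip051.LB.Fc.F2 Pool.Agent.Strip051.LB.Fn Pool.Agent.Strip051.LB.Fn.F2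

/-- coordinates of a point of the box -/
def In (b : Bx) (E : Pt) (x1 x2 : ℝ) : Prop :=
  (S : ℝ) * x1 = ((b.p1 : ℝ) - b.n1) + b.q1 * E.e1 ∧ (S : ℝ) * x2 = ((b.p2 : ℝ) - b.n2) + b.q2 * E.e2

variable {b : Bx} {E : Pt} {x1 x2 : ℝ}

def t0 (b : Bx) : TM := X1 b
noncomputable def v0 (x1 _x2 : ℝ) : ℝ := x1
theorem h0 (h : In b E x1 x2) : Enc S E (t0 b) (v0 x1 x2) := enc_X1 h.1

def t1 (b : Bx) : TM := X2 b
noncomputable def v1 (_x1 x2 : ℝ) : ℝ := x2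
theorem h1 (h : In b E x1 x2) : Enc S E (t1 b) (v1 x1 x2) := enc_X2 h.2

def t2 (b : Bx) : TM := tsub (t1 b) (t0 b)
noncomputable def v2 (x1 x2 : ℝ) : ℝ := v1 x1 x2 - v0 x1 x2
theorem h2 (h : In b E x1 x2) : Enc S E (t2 b) (v2 x1 x2) := enc_sub (h1 h) (h0 h)

def t3 (_b : Bx) : TM := tconst 1859775393 0 1
noncomputable def v3 (_x1 _x2 : ℝ) : ℝ := Real.sqrt ((3 : ℕ) : ℝ)
theorem h3 (_h : In b E x1 x2) : Enc S E (t3 b) (v3 x1 x2) := enc_sqrtn E (by decide) (by decide)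

def t4 (b : Bx) : TM := tscale 1 2 (t3 b)
noncomputable def v4 (x1 x2 : ℝ) : ℝ := ((1 : ℕ) : ℝ) / ((2 : ℕ) : ℝ) * v3 x1 x2
theorem h4 (h : In b E x1 x2) : Enc S E (t4 b) (v4 x1 x2) := enc_scale 1 (by norm_num) (h3 h)

def t5 (b : Bx) : TM := tsq S (t0 b)
noncomputable def v5 (x1 x2 : ℝ) : ℝ := (v0 x1 x2) ^ 2
theorem h5 (h : In b E x1 x2) : Enc S E (t5 b) (v5 x1 x2) := enc_sq hS (h0 h)

def t6 (_b : Bx) : TM := tconst (Nat.mul 1 S) 0 0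
noncomputable def v6 (_x1 _x2 : ℝ) : ℝ := ((1 : ℕ) : ℝ)
theorem h6 (_h : In b E x1 x2) : Enc S E (t6 b) (v6 x1 x2) := enc_nc E 1

def t7 (b : Bx) : TM := tsub (t6 b) (t5 b)
noncomputable def v7 (x1 x2 : ℝ) : ℝ := v6 x1 x2 - v5 x1 x2
theorem h7 (h : In b E x1 x2) : Enc S E (t7 b) (v7 x1 x2) := enc_sub (h6 h) (h5 h)

def t8 (b : Bx) : TM := tsqrt S (t7 b)
noncomputable def v8 (x1 x2 : ℝ) : ℝ := Real.sqrt (v7 x1 x2)
theorem h8 (h : In b E x1 x2) : Enc S E (t8 b) (v8 x1 x2) := enc_sqrt hS (h7 h)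

def t10 (_b : Bx) : TM := tconst (Nat.div (Nat.mul 1 S) 2) 0 1
noncomputable def v10 (_x1 _x2 : ℝ) : ℝ := ((1 : ℕ) : ℝ) / ((2 : ℕ) : ℝ)
theorem h10 (_h : In b E x1 x2) : Enc S E (t10 b) (v10 x1 x2) := enc_rat E 1 (by norm_num)

def t12 (b : Bx) : TM := tscale 1 2 (t8 b)
noncomputable def v12 (x1 x2 : ℝ) : ℝ := ((1 : ℕ) : ℝ) / ((2 : ℕ) : ℝ) * v8 x1 x2
theorem h12 (h : In b E x1 x2) : Enc S E (t12 b) (v12 x1 x2) := enc_scale 1 (by norm_num) (h8 h)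

def t14 (b : Bx) : TM := tmul S (t0 b) (t4 b)
noncomputable def v14 (x1 x2 : ℝ) : ℝ := v0 x1 x2 * v4 x1 x2
theorem h14 (h : In b E x1 x2) : Enc S E (t14 b) (v14 x1 x2) := enc_mul hS (h0 h) (h4 h)

def t16 (b : Bx) : TM := tscale 1 2 (t0 b)
noncomputable def v16 (x1 x2 : ℝ) : ℝ := ((1 : ℕ) : ℝ) / ((2 : ℕ) : ℝ) * v0 x1 x2
theorem h16 (h : In b E x1 x2) : Enc S E (t16 b) (v16 x1 x2) := enc_scale 1 (by norm_num) (h0 h)

def t18 (b : Bx) : TM := tmul S (t8 b) (t4 b)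
noncomputable def v18 (x1 x2 : ℝ) : ℝ := v8 x1 x2 * v4 x1 x2
theorem h18 (h : In b E x1 x2) : Enc S E (t18 b) (v18 x1 x2) := enc_mul hS (h8 h) (h4 h)

def t19 (b : Bx) : TM := tsub (t18 b) (t16 b)
noncomputable def v19 (x1 x2 : ℝ) : ℝ := v18 x1 x2 - v16 x1 x2
theorem h19 (h : In b E x1 x2) : Enc S E (t19 b) (v19 x1 x2) := enc_sub (h18 h) (h16 h)

def t22 (b : Bx) : TM := tsub (t2 b) (t19 b)
noncomputable def v22 (x1 x2 : ℝ) : ℝ := v2 x1 x2 - v19 x1 x2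
theorem h22 (h : In b E x1 x2) : Enc S E (t22 b) (v22 x1 x2) := enc_sub (h2 h) (h19 h)

def t23 (b : Bx) : TM := tsq S (t2 b)
noncomputable def v23 (x1 x2 : ℝ) : ℝ := (v2 x1 x2) ^ 2
theorem h23 (h : In b E x1 x2) : Enc S E (t23 b) (v23 x1 x2) := enc_sq hS (h2 h)

def t24 (b : Bx) : TM := tsub (t6 b) (t23 b)
noncomputable def v24 (x1 x2 : ℝ) : ℝ := v6 x1 x2 - v23 x1 x2
theorem h24 (h : In b E x1 x2) : Enc S E (t24 b) (v24 x1 x2) := enc_sub (h6 h) (h23 h)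

def t25 (b : Bx) : TM := tsqrt S (t24 b)
noncomputable def v25 (x1 x2 : ℝ) : ℝ := Real.sqrt (v24 x1 x2)
theorem h25 (h : In b E x1 x2) : Enc S E (t25 b) (v25 x1 x2) := enc_sqrt hS (h24 h)

def t26 (b : Bx) : TM := tadd (t14 b) (t12 b)
noncomputable def v26 (x1 x2 : ℝ) : ℝ := v14 x1 x2 + v12 x1 x2
theorem h26 (h : In b E x1 x2) : Enc S E (t26 b) (v26 x1 x2) := enc_add (h14 h) (h12 h)

def t28 (b : Bx) : TM := tsub (t8 b) (t25 b)
noncomputable def v28 (x1 x2 : ℝ) : ℝ := v8 x1 x2 - v25 x1 x2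
theorem h28 (h : In b E x1 x2) : Enc S E (t28 b) (v28 x1 x2) := enc_sub (h8 h) (h25 h)

def t29 (b : Bx) : TM := tadd (t0 b) (t2 b)
noncomputable def v29 (x1 x2 : ℝ) : ℝ := v0 x1 x2 + v2 x1 x2
theorem h29 (h : In b E x1 x2) : Enc S E (t29 b) (v29 x1 x2) := enc_add (h0 h) (h2 h)

def t30 (b : Bx) : TM := tmul S (t3 b) (t0 b)
noncomputable def v30 (x1 x2 : ℝ) : ℝ := v3 x1 x2 * v0 x1 x2
theorem h30 (h : In b E x1 x2) : Enc S E (t30 b) (v30 x1 x2) := enc_mul hS (h3 h) (h0 h)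

def t31 (b : Bx) : TM := tsub (t8 b) (t30 b)
noncomputable def v31 (x1 x2 : ℝ) : ℝ := v8 x1 x2 - v30 x1 x2
theorem h31 (h : In b E x1 x2) : Enc S E (t31 b) (v31 x1 x2) := enc_sub (h8 h) (h30 h)

def t32 (b : Bx) : TM := tadd (t6 b) (t8 b)
noncomputable def v32 (x1 x2 : ℝ) : ℝ := v6 x1 x2 + v8 x1 x2
theorem h32 (h : In b E x1 x2) : Enc S E (t32 b) (v32 x1 x2) := enc_add (h6 h) (h8 h)

def t33 (b : Bx) : TM := tmul S (t31 b) (t32 b)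
noncomputable def v33 (x1 x2 : ℝ) : ℝ := v31 x1 x2 * v32 x1 x2
theorem h33 (h : In b E x1 x2) : Enc S E (t33 b) (v33 x1 x2) := enc_mul hS (h31 h) (h32 h)

def t34 (b : Bx) : TM := tsub (t32 b) (t30 b)
noncomputable def v34 (x1 x2 : ℝ) : ℝ := v32 x1 x2 - v30 x1 x2
theorem h34 (h : In b E x1 x2) : Enc S E (t34 b) (v34 x1 x2) := enc_sub (h32 h) (h30 h)

def t35 (b : Bx) : TM := tinv S (t34 b)
noncomputable def v35 (x1 x2 : ℝ) : ℝ := (v34 x1 x2)⁻¹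
theorem h35 (h : In b E x1 x2) : Enc S E (t35 b) (v35 x1 x2) := enc_inv hS (h34 h)

def t36 (b : Bx) : TM := tmul S (t33 b) (t35 b)
noncomputable def v36 (x1 x2 : ℝ) : ℝ := v33 x1 x2 * v35 x1 x2
theorem h36 (h : In b E x1 x2) : Enc S E (t36 b) (v36 x1 x2) := enc_mul hS (h33 h) (h35 h)

def t39 (b : Bx) : TM := tmul S (t3 b) (t2 b)
noncomputable def v39 (x1 x2 : ℝ) : ℝ := v3 x1 x2 * v2 x1 x2
theorem h39 (h : In b E x1 x2) : Enc S E (t39 b) (v39 x1 x2) := enc_mul hS (h3 h) (h2 h)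

def t40 (b : Bx) : TM := tsub (t39 b) (t25 b)
noncomputable def v40 (x1 x2 : ℝ) : ℝ := v39 x1 x2 - v25 x1 x2
theorem h40 (h : In b E x1 x2) : Enc S E (t40 b) (v40 x1 x2) := enc_sub (h39 h) (h25 h)

def t42 (b : Bx) : TM := tadd (t6 b) (t39 b)
noncomputable def v42 (x1 x2 : ℝ) : ℝ := v6 x1 x2 + v39 x1 x2
theorem h42 (h : In b E x1 x2) : Enc S E (t42 b) (v42 x1 x2) := enc_add (h6 h) (h39 h)

def t43 (b : Bx) : TM := tsub (t42 b) (t25 b)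
noncomputable def v43 (x1 x2 : ℝ) : ℝ := v42 x1 x2 - v25 x1 x2
theorem h43 (h : In b E x1 x2) : Enc S E (t43 b) (v43 x1 x2) := enc_sub (h42 h) (h25 h)

def t44 (b : Bx) : TM := tnat 2 (t43 b)
noncomputable def v44 (x1 x2 : ℝ) : ℝ := ((2 : ℕ) : ℝ) * v43 x1 x2
theorem h44 (h : In b E x1 x2) : Enc S E (t44 b) (v44 x1 x2) := enc_nat 2 (h43 h)

def t45 (b : Bx) : TM := tinv S (t44 b)
noncomputable def v45 (x1 x2 : ℝ) : ℝ := (v44 x1 x2)⁻¹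
theorem h45 (h : In b E x1 x2) : Enc S E (t45 b) (v45 x1 x2) := enc_inv hS (h44 h)

def t48 (b : Bx) : TM := tsq S (t28 b)
noncomputable def v48 (x1 x2 : ℝ) : ℝ := (v28 x1 x2) ^ 2
theorem h48 (h : In b E x1 x2) : Enc S E (t48 b) (v48 x1 x2) := enc_sq hS (h28 h)

def t49 (b : Bx) : TM := tsq S (t29 b)
noncomputable def v49 (x1 x2 : ℝ) : ℝ := (v29 x1 x2) ^ 2
theorem h49 (h : In b E x1 x2) : Enc S E (t49 b) (v49 x1 x2) := enc_sq hS (h29 h)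

def t50 (b : Bx) : TM := tadd (t48 b) (t49 b)
noncomputable def v50 (x1 x2 : ℝ) : ℝ := v48 x1 x2 + v49 x1 x2
theorem h50 (h : In b E x1 x2) : Enc S E (t50 b) (v50 x1 x2) := enc_add (h48 h) (h49 h)

def t54 (b : Bx) : TM := tadd (t2 b) (t19 b)
noncomputable def v54 (x1 x2 : ℝ) : ℝ := v2 x1 x2 + v19 x1 x2
theorem h54 (h : In b E x1 x2) : Enc S E (t54 b) (v54 x1 x2) := enc_add (h2 h) (h19 h)

def t57 (b : Bx) : TM := tadd (t25 b) (t26 b)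
noncomputable def v57 (x1 x2 : ℝ) : ℝ := v25 x1 x2 + v26 x1 x2
theorem h57 (h : In b E x1 x2) : Enc S E (t57 b) (v57 x1 x2) := enc_add (h25 h) (h26 h)

def t58 (b : Bx) : TM := tinv S (t57 b)
noncomputable def v58 (x1 x2 : ℝ) : ℝ := (v57 x1 x2)⁻¹
theorem h58 (h : In b E x1 x2) : Enc S E (t58 b) (v58 x1 x2) := enc_inv hS (h57 h)

def t59 (b : Bx) : TM := tmul S (t54 b) (t58 b)
noncomputable def v59 (x1 x2 : ℝ) : ℝ := v54 x1 x2 * v58 x1 x2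
theorem h59 (h : In b E x1 x2) : Enc S E (t59 b) (v59 x1 x2) := enc_mul hS (h54 h) (h58 h)

def t61 (b : Bx) : TM := tsub (t8 b) (t26 b)
noncomputable def v61 (x1 x2 : ℝ) : ℝ := v8 x1 x2 - v26 x1 x2
theorem h61 (h : In b E x1 x2) : Enc S E (t61 b) (v61 x1 x2) := enc_sub (h8 h) (h26 h)

def t63 (b : Bx) : TM := tadd (t28 b) (t61 b)
noncomputable def v63 (x1 x2 : ℝ) : ℝ := v28 x1 x2 + v61 x1 x2
theorem h63 (h : In b E x1 x2) : Enc S E (t63 b) (v63 x1 x2) := enc_add (h28 h) (h61 h)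

def t64 (b : Bx) : TM := tmul S (t59 b) (t63 b)
noncomputable def v64 (x1 x2 : ℝ) : ℝ := v59 x1 x2 * v63 x1 x2
theorem h64 (h : In b E x1 x2) : Enc S E (t64 b) (v64 x1 x2) := enc_mul hS (h59 h) (h63 h)

def t65 (b : Bx) : TM := tadd (t0 b) (t19 b)
noncomputable def v65 (x1 x2 : ℝ) : ℝ := v0 x1 x2 + v19 x1 x2
theorem h65 (h : In b E x1 x2) : Enc S E (t65 b) (v65 x1 x2) := enc_add (h0 h) (h19 h)

def t67 (b : Bx) : TM := tadd (t29 b) (t65 b)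
noncomputable def v67 (x1 x2 : ℝ) : ℝ := v29 x1 x2 + v65 x1 x2
theorem h67 (h : In b E x1 x2) : Enc S E (t67 b) (v67 x1 x2) := enc_add (h29 h) (h65 h)

def t69 (b : Bx) : TM := tadd (t64 b) (t67 b)
noncomputable def v69 (x1 x2 : ℝ) : ℝ := v64 x1 x2 + v67 x1 x2
theorem h69 (h : In b E x1 x2) : Enc S E (t69 b) (v69 x1 x2) := enc_add (h64 h) (h67 h)

def t71 (b : Bx) : TM := kx2b_t (t28 b) (t29 b)
noncomputable def v71 (x1 x2 : ℝ) : ℝ := kx2b_v (v28 x1 x2) (v29 x1 x2)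
theorem h71 (h : In b E x1 x2) : Enc S E (t71 b) (v71 x1 x2) := kx2b_enc (h28 h) (h29 h)

def t72 (b : Bx) : TM := f2p_t (t29 b)
noncomputable def v72 (x1 x2 : ℝ) : ℝ := f2p_v (v29 x1 x2)
theorem h72 (h : In b E x1 x2) : Enc S E (t72 b) (v72 x1 x2) := f2p_enc (h29 h)

def t73 (b : Bx) : TM := tsub (t72 b) (t28 b)
noncomputable def v73 (x1 x2 : ℝ) : ℝ := v72 x1 x2 - v28 x1 x2
theorem h73 (h : In b E x1 x2) : Enc S E (t73 b) (v73 x1 x2) := enc_sub (h72 h) (h28 h)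

def t74 (b : Bx) : TM := tadd (t72 b) (t28 b)
noncomputable def v74 (x1 x2 : ℝ) : ℝ := v72 x1 x2 + v28 x1 x2
theorem h74 (h : In b E x1 x2) : Enc S E (t74 b) (v74 x1 x2) := enc_add (h72 h) (h28 h)

def t77 (b : Bx) : TM := tmul S (t69 b) (t71 b)
noncomputable def v77 (x1 x2 : ℝ) : ℝ := v69 x1 x2 * v71 x1 x2
theorem h77 (h : In b E x1 x2) : Enc S E (t77 b) (v77 x1 x2) := enc_mul hS (h69 h) (h71 h)

def t78 (b : Bx) : TM := tadd (t59 b) (t77 b)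
noncomputable def v78 (x1 x2 : ℝ) : ℝ := v59 x1 x2 + v77 x1 x2
theorem h78 (h : In b E x1 x2) : Enc S E (t78 b) (v78 x1 x2) := enc_add (h59 h) (h77 h)

def t79 (b : Bx) : TM := tmul S (t8 b) (t2 b)
noncomputable def v79 (x1 x2 : ℝ) : ℝ := v8 x1 x2 * v2 x1 x2
theorem h79 (h : In b E x1 x2) : Enc S E (t79 b) (v79 x1 x2) := enc_mul hS (h8 h) (h2 h)

def t80 (b : Bx) : TM := tmul S (t25 b) (t0 b)
noncomputable def v80 (x1 x2 : ℝ) : ℝ := v25 x1 x2 * v0 x1 x2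
theorem h80 (h : In b E x1 x2) : Enc S E (t80 b) (v80 x1 x2) := enc_mul hS (h25 h) (h0 h)

def t82 (b : Bx) : TM := tadd (t79 b) (t80 b)
noncomputable def v82 (x1 x2 : ℝ) : ℝ := v79 x1 x2 + v80 x1 x2
theorem h82 (h : In b E x1 x2) : Enc S E (t82 b) (v82 x1 x2) := enc_add (h79 h) (h80 h)

def t83 (b : Bx) : TM := tinv S (t3 b)
noncomputable def v83 (x1 x2 : ℝ) : ℝ := (v3 x1 x2)⁻¹
theorem h83 (h : In b E x1 x2) : Enc S E (t83 b) (v83 x1 x2) := enc_inv hS (h3 h)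

def t84 (b : Bx) : TM := tmul S (t82 b) (t83 b)
noncomputable def v84 (x1 x2 : ℝ) : ℝ := v82 x1 x2 * v83 x1 x2
theorem h84 (h : In b E x1 x2) : Enc S E (t84 b) (v84 x1 x2) := enc_mul hS (h82 h) (h83 h)

def t85 (b : Bx) : TM := tsub (t84 b) (t10 b)
noncomputable def v85 (x1 x2 : ℝ) : ℝ := v84 x1 x2 - v10 x1 x2
theorem h85 (h : In b E x1 x2) : Enc S E (t85 b) (v85 x1 x2) := enc_sub (h84 h) (h10 h)

def t88 (b : Bx) : TM := tmul S (t59 b) (t0 b)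
noncomputable def v88 (x1 x2 : ℝ) : ℝ := v59 x1 x2 * v0 x1 x2
theorem h88 (h : In b E x1 x2) : Enc S E (t88 b) (v88 x1 x2) := enc_mul hS (h59 h) (h0 h)

def t91 (b : Bx) : TM := tsub (t8 b) (t88 b)
noncomputable def v91 (x1 x2 : ℝ) : ℝ := v8 x1 x2 - v88 x1 x2
theorem h91 (h : In b E x1 x2) : Enc S E (t91 b) (v91 x1 x2) := enc_sub (h8 h) (h88 h)

def t93 (b : Bx) : TM := tmul S (t91 b) (t83 b)
noncomputable def v93 (x1 x2 : ℝ) : ℝ := v91 x1 x2 * v83 x1 x2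
theorem h93 (h : In b E x1 x2) : Enc S E (t93 b) (v93 x1 x2) := enc_mul hS (h91 h) (h83 h)

def t95 (b : Bx) : TM := tsub (t2 b) (t4 b)
noncomputable def v95 (x1 x2 : ℝ) : ℝ := v2 x1 x2 - v4 x1 x2
theorem h95 (h : In b E x1 x2) : Enc S E (t95 b) (v95 x1 x2) := enc_sub (h2 h) (h4 h)

def t96 (b : Bx) : TM := tsub (t29 b) (t4 b)
noncomputable def v96 (x1 x2 : ℝ) : ℝ := v29 x1 x2 - v4 x1 x2
theorem h96 (h : In b E x1 x2) : Enc S E (t96 b) (v96 x1 x2) := enc_sub (h29 h) (h4 h)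

def t97 (b : Bx) : TM := tnat 2 (t26 b)
noncomputable def v97 (x1 x2 : ℝ) : ℝ := ((2 : ℕ) : ℝ) * v26 x1 x2
theorem h97 (h : In b E x1 x2) : Enc S E (t97 b) (v97 x1 x2) := enc_nat 2 (h26 h)

def t98 (b : Bx) : TM := tnat 2 (t59 b)
noncomputable def v98 (x1 x2 : ℝ) : ℝ := ((2 : ℕ) : ℝ) * v59 x1 x2
theorem h98 (h : In b E x1 x2) : Enc S E (t98 b) (v98 x1 x2) := enc_nat 2 (h59 h)

def t100 (b : Bx) : TM := tadd (t6 b) (t97 b)
noncomputable def v100 (x1 x2 : ℝ) : ℝ := v6 x1 x2 + v97 x1 x2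
theorem h100 (h : In b E x1 x2) : Enc S E (t100 b) (v100 x1 x2) := enc_add (h6 h) (h97 h)

def t101 (b : Bx) : TM := tmul S (t3 b) (t19 b)
noncomputable def v101 (x1 x2 : ℝ) : ℝ := v3 x1 x2 * v19 x1 x2
theorem h101 (h : In b E x1 x2) : Enc S E (t101 b) (v101 x1 x2) := enc_mul hS (h3 h) (h19 h)

def t102 (b : Bx) : TM := tsub (t101 b) (t26 b)
noncomputable def v102 (x1 x2 : ℝ) : ℝ := v101 x1 x2 - v26 x1 x2
theorem h102 (h : In b E x1 x2) : Enc S E (t102 b) (v102 x1 x2) := enc_sub (h101 h) (h26 h)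

def t103 (b : Bx) : TM := tadd (t3 b) (t59 b)
noncomputable def v103 (x1 x2 : ℝ) : ℝ := v3 x1 x2 + v59 x1 x2
theorem h103 (h : In b E x1 x2) : Enc S E (t103 b) (v103 x1 x2) := enc_add (h3 h) (h59 h)

def t104 (b : Bx) : TM := tmul S (t100 b) (t102 b)
noncomputable def v104 (x1 x2 : ℝ) : ℝ := v100 x1 x2 * v102 x1 x2
theorem h104 (h : In b E x1 x2) : Enc S E (t104 b) (v104 x1 x2) := enc_mul hS (h100 h) (h102 h)

def t105 (b : Bx) : TM := tmul S (t98 b) (t40 b)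
noncomputable def v105 (x1 x2 : ℝ) : ℝ := v98 x1 x2 * v40 x1 x2
theorem h105 (h : In b E x1 x2) : Enc S E (t105 b) (v105 x1 x2) := enc_mul hS (h98 h) (h40 h)

def t107 (b : Bx) : TM := tmul S (t100 b) (t103 b)
noncomputable def v107 (x1 x2 : ℝ) : ℝ := v100 x1 x2 * v103 x1 x2
theorem h107 (h : In b E x1 x2) : Enc S E (t107 b) (v107 x1 x2) := enc_mul hS (h100 h) (h103 h)

def t108 (b : Bx) : TM := tsub (t107 b) (t105 b)
noncomputable def v108 (x1 x2 : ℝ) : ℝ := v107 x1 x2 - v105 x1 x2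
theorem h108 (h : In b E x1 x2) : Enc S E (t108 b) (v108 x1 x2) := enc_sub (h107 h) (h105 h)

def t109 (b : Bx) : TM := tadd (t6 b) (t101 b)
noncomputable def v109 (x1 x2 : ℝ) : ℝ := v6 x1 x2 + v101 x1 x2
theorem h109 (h : In b E x1 x2) : Enc S E (t109 b) (v109 x1 x2) := enc_add (h6 h) (h101 h)

def t110 (b : Bx) : TM := tsub (t109 b) (t26 b)
noncomputable def v110 (x1 x2 : ℝ) : ℝ := v109 x1 x2 - v26 x1 x2
theorem h110 (h : In b E x1 x2) : Enc S E (t110 b) (v110 x1 x2) := enc_sub (h109 h) (h26 h)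

def t111 (b : Bx) : TM := tnat 2 (t110 b)
noncomputable def v111 (x1 x2 : ℝ) : ℝ := ((2 : ℕ) : ℝ) * v110 x1 x2
theorem h111 (h : In b E x1 x2) : Enc S E (t111 b) (v111 x1 x2) := enc_nat 2 (h110 h)

def t112 (b : Bx) : TM := tnat 2 (t103 b)
noncomputable def v112 (x1 x2 : ℝ) : ℝ := ((2 : ℕ) : ℝ) * v103 x1 x2
theorem h112 (h : In b E x1 x2) : Enc S E (t112 b) (v112 x1 x2) := enc_nat 2 (h103 h)

def t113 (b : Bx) : TM := tinv S (t111 b)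
noncomputable def v113 (x1 x2 : ℝ) : ℝ := (v111 x1 x2)⁻¹
theorem h113 (h : In b E x1 x2) : Enc S E (t113 b) (v113 x1 x2) := enc_inv hS (h111 h)

def t114 (b : Bx) : TM := tmul S (t45 b) (t113 b)
noncomputable def v114 (x1 x2 : ℝ) : ℝ := v45 x1 x2 * v113 x1 x2
theorem h114 (h : In b E x1 x2) : Enc S E (t114 b) (v114 x1 x2) := enc_mul hS (h45 h) (h113 h)

def t115 (b : Bx) : TM := tmul S (t112 b) (t114 b)
noncomputable def v115 (x1 x2 : ℝ) : ℝ := v112 x1 x2 * v114 x1 x2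
theorem h115 (h : In b E x1 x2) : Enc S E (t115 b) (v115 x1 x2) := enc_mul hS (h112 h) (h114 h)

def t118 (b : Bx) : TM := tmul S (t108 b) (t45 b)
noncomputable def v118 (x1 x2 : ℝ) : ℝ := v108 x1 x2 * v45 x1 x2
theorem h118 (h : In b E x1 x2) : Enc S E (t118 b) (v118 x1 x2) := enc_mul hS (h108 h) (h45 h)

def t119 (b : Bx) : TM := tmul S (t104 b) (t115 b)
noncomputable def v119 (x1 x2 : ℝ) : ℝ := v104 x1 x2 * v115 x1 x2
theorem h119 (h : In b E x1 x2) : Enc S E (t119 b) (v119 x1 x2) := enc_mul hS (h104 h) (h115 h)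

def t123 (b : Bx) : TM := tsub (t119 b) (t118 b)
noncomputable def v123 (x1 x2 : ℝ) : ℝ := v119 x1 x2 - v118 x1 x2
theorem h123 (h : In b E x1 x2) : Enc S E (t123 b) (v123 x1 x2) := enc_sub (h119 h) (h118 h)

def t124 (b : Bx) : TM := tsub (t78 b) (t123 b)
noncomputable def v124 (x1 x2 : ℝ) : ℝ := v78 x1 x2 - v123 x1 x2
theorem h124 (h : In b E x1 x2) : Enc S E (t124 b) (v124 x1 x2) := enc_sub (h78 h) (h123 h)

def t126 (b : Bx) : TM := tmul S (t0 b) (t123 b)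
noncomputable def v126 (x1 x2 : ℝ) : ℝ := v0 x1 x2 * v123 x1 x2
theorem h126 (h : In b E x1 x2) : Enc S E (t126 b) (v126 x1 x2) := enc_mul hS (h0 h) (h123 h)

def t127 (b : Bx) : TM := tsub (t126 b) (t36 b)
noncomputable def v127 (x1 x2 : ℝ) : ℝ := v126 x1 x2 - v36 x1 x2
theorem h127 (h : In b E x1 x2) : Enc S E (t127 b) (v127 x1 x2) := enc_sub (h126 h) (h36 h)

def t128 (b : Bx) : TM := tmul S (t95 b) (t124 b)
noncomputable def v128 (x1 x2 : ℝ) : ℝ := v95 x1 x2 * v124 x1 x2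
theorem h128 (h : In b E x1 x2) : Enc S E (t128 b) (v128 x1 x2) := enc_mul hS (h95 h) (h124 h)

def t129 (b : Bx) : TM := tsub (t127 b) (t128 b)
noncomputable def v129 (x1 x2 : ℝ) : ℝ := v127 x1 x2 - v128 x1 x2
theorem h129 (h : In b E x1 x2) : Enc S E (t129 b) (v129 x1 x2) := enc_sub (h127 h) (h128 h)

def t132 (b : Bx) : TM := tsub (t4 b) (t2 b)
noncomputable def v132 (x1 x2 : ℝ) : ℝ := v4 x1 x2 - v2 x1 x2
theorem h132 (h : In b E x1 x2) : Enc S E (t132 b) (v132 x1 x2) := enc_sub (h4 h) (h2 h)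

def t134 (b : Bx) : TM := tsub (t4 b) (t29 b)
noncomputable def v134 (x1 x2 : ℝ) : ℝ := v4 x1 x2 - v29 x1 x2
theorem h134 (h : In b E x1 x2) : Enc S E (t134 b) (v134 x1 x2) := enc_sub (h4 h) (h29 h)

def t135 (b : Bx) : TM := qn_t (t96 b) (t132 b) (t93 b) (t129 b) (t124 b)
noncomputable def v135 (x1 x2 : ℝ) : ℝ := qn_v (v96 x1 x2) (v132 x1 x2) (v93 x1 x2) (v129 x1 x2) (v124 x1 x2)
theorem h135 (h : In b E x1 x2) : Enc S E (t135 b) (v135 x1 x2) := qn_enc (h96 h) (h132 h) (h93 h) (h129 h) (h124 h)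

def t136 (b : Bx) : TM := tscale 1 4 (t3 b)
noncomputable def v136 (x1 x2 : ℝ) : ℝ := ((1 : ℕ) : ℝ) / ((4 : ℕ) : ℝ) * v3 x1 x2
theorem h136 (h : In b E x1 x2) : Enc S E (t136 b) (v136 x1 x2) := enc_scale 1 (by norm_num) (h3 h)

def t138 (b : Bx) : TM := tsub (t0 b) (t136 b)
noncomputable def v138 (x1 x2 : ℝ) : ℝ := v0 x1 x2 - v136 x1 x2
theorem h138 (h : In b E x1 x2) : Enc S E (t138 b) (v138 x1 x2) := enc_sub (h0 h) (h136 h)

def t140 (b : Bx) : TM := tsub (t136 b) (t2 b)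
noncomputable def v140 (x1 x2 : ℝ) : ℝ := v136 x1 x2 - v2 x1 x2
theorem h140 (h : In b E x1 x2) : Enc S E (t140 b) (v140 x1 x2) := enc_sub (h136 h) (h2 h)

def t141 (b : Bx) : TM := tscale 3 4 (t3 b)
noncomputable def v141 (x1 x2 : ℝ) : ℝ := ((3 : ℕ) : ℝ) / ((4 : ℕ) : ℝ) * v3 x1 x2
theorem h141 (h : In b E x1 x2) : Enc S E (t141 b) (v141 x1 x2) := enc_scale 3 (by norm_num) (h3 h)

def t143 (b : Bx) : TM := tsub (t29 b) (t141 b)
noncomputable def v143 (x1 x2 : ℝ) : ℝ := v29 x1 x2 - v141 x1 x2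
theorem h143 (h : In b E x1 x2) : Enc S E (t143 b) (v143 x1 x2) := enc_sub (h29 h) (h141 h)

def t144 (_b : Bx) : TM := tconst (Nat.div (Nat.mul 1 S) 16) 0 1
noncomputable def v144 (_x1 _x2 : ℝ) : ℝ := ((1 : ℕ) : ℝ) / ((16 : ℕ) : ℝ)
theorem h144 (_h : In b E x1 x2) : Enc S E (t144 b) (v144 x1 x2) := enc_rat E 1 (by norm_num)

def t145 (b : Bx) : TM := tsub (t22 b) (t144 b)
noncomputable def v145 (x1 x2 : ℝ) : ℝ := v22 x1 x2 - v144 x1 x2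
theorem h145 (h : In b E x1 x2) : Enc S E (t145 b) (v145 x1 x2) := enc_sub (h22 h) (h144 h)

def t146 (b : Bx) : TM := tsub (t19 b) (t2 b)
noncomputable def v146 (x1 x2 : ℝ) : ℝ := v19 x1 x2 - v2 x1 x2
theorem h146 (h : In b E x1 x2) : Enc S E (t146 b) (v146 x1 x2) := enc_sub (h19 h) (h2 h)

def t147 (b : Bx) : TM := tsub (t146 b) (t144 b)
noncomputable def v147 (x1 x2 : ℝ) : ℝ := v146 x1 x2 - v144 x1 x2
theorem h147 (h : In b E x1 x2) : Enc S E (t147 b) (v147 x1 x2) := enc_sub (h146 h) (h144 h)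

def t148 (b : Bx) : TM := tsub (t29 b) (t3 b)
noncomputable def v148 (x1 x2 : ℝ) : ℝ := v29 x1 x2 - v3 x1 x2
theorem h148 (h : In b E x1 x2) : Enc S E (t148 b) (v148 x1 x2) := enc_sub (h29 h) (h3 h)

def t149 (b : Bx) : TM := tsub (t6 b) (t50 b)
noncomputable def v149 (x1 x2 : ℝ) : ℝ := v6 x1 x2 - v50 x1 x2
theorem h149 (h : In b E x1 x2) : Enc S E (t149 b) (v149 x1 x2) := enc_sub (h6 h) (h50 h)

def t150 (b : Bx) : TM := tadd (t85 b) (t10 b)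
noncomputable def v150 (x1 x2 : ℝ) : ℝ := v85 x1 x2 + v10 x1 x2
theorem h150 (h : In b E x1 x2) : Enc S E (t150 b) (v150 x1 x2) := enc_add (h85 h) (h10 h)

def t151 (b : Bx) : TM := tneg (t150 b)
noncomputable def v151 (x1 x2 : ℝ) : ℝ := -(v150 x1 x2)
theorem h151 (h : In b E x1 x2) : Enc S E (t151 b) (v151 x1 x2) := enc_neg (h150 h)

def g0 (b : Bx) : Bool := and (pos (t69 b)) (and (pos (t24 b)) (and (pos (t57 b)) (and (pos (t73 b)) (and (pos (t74 b)) (and (pos (t44 b)) (and (pos (t111 b)) (and (pos (t34 b)) (or (pos (t146 b)) (pos (t135 b))))))))))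

def l0 (b : Bx) : Nat := cond (g0 b) 0 (pickb 1 (t135 b) b)

def P0 (x1 x2 : ℝ) : Prop := 0 < v69 x1 x2 ∧ 0 < v24 x1 x2 ∧ 0 < v57 x1 x2 ∧ 0 < v73 x1 x2 ∧ 0 < v74 x1 x2 ∧ 0 < v44 x1 x2 ∧ 0 < v111 x1 x2 ∧ 0 < v34 x1 x2 ∧ (0 < v146 x1 x2 ∨ 0 < v135 x1 x2)

theorem l0_sound (h : In b E x1 x2) (e : l0 b = 0) : P0 x1 x2 := by
  have e1 : g0 b = true := by
    rcases e2 : g0 b with _ | _
    · unfold l0 at e; rw [e2, cond_false] at e; exact absurd e (pickb_ne _ _ _)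
    · rfl
  exact ⟨pos_sound hS (h69 h) (Bool.and_eq_true_iff.mp e1).1, ⟨pos_sound hS (h24 h) (Bool.and_eq_true_iff.mp (Bool.and_eq_true_iff.mp e1).2).1, ⟨pos_sound hS (h57 h) (Bool.and_eq_true_iff.mp (Bool.and_eq_true_iff.mp (Bool.and_eq_true_iff.mp e1).2).2).1, ⟨pos_sound hS (h73 h) (Bool.and_eq_true_iff.mp (Bool.and_eq_true_iff.mp (Bool.and_eq_true_iff.mp (Bool.and_eq_true_iff.mp e1).2).2).2).1, ⟨pos_sound hS (h74 h) (Bool.and_eq_true_iff.mp (Bool.and_eq_true_iff.mp (Bool.and_eq_true_iff.mp (Bool.and_eq_true_iff.mp (Bool.and_eq_true_iff.mp e1).2).2).2).2).1, ⟨pos_sound hS (h44 h) (Bool.and_eq_true_iff.mp (Bool.and_eq_true_iff.mp (Bool.and_eq_true_iff.mp (Bool.and_eq_true_iff.mp (Bool.and_eq_true_iff.mp (Bool.and_eq_true_iff.mp e1).2).2).2).2).2).1, ⟨pos_sound hS (h111 h) (Bool.and_eq_true_iff.mp (Bool.and_eq_true_iff.mp (Bool.and_eq_true_iff.mp (Bool.and_eq_true_iff.mp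 (Bool.and_eq_true_iff.mp (Bool.and_eq_true_iff.mp (Bool.and_eq_true_iff.mp e1).2).2).2).2).2).2).1, ⟨pos_sound hS (h34 h) (Bool.and_eq_true_iff.mp (Bool.and_eq_true_iff.mp (Bool.and_eq_true_iff.mp (Bool.and_eq_true_iff.mp (Bool.and_eq_true_iff.mp (Bool.and_eq_true_iff.mp (Bool.and_eq_true_iff.mp (Bool.and_eq_true_iff.mp e1).2).2).2).2).2).2).2).1, ((Bool.or_eq_true_iff.mp (Bool.and_eq_true_iff.mp (Bool.and_eq_true_iff.mp (Bool.and_eq_true_iff.mp (Bool.and_eq_true_iff.mp (Bool.and_eq_true_iff.mp (Bool.and_eq_true_iff.mp (Bool.and_eq_true_iff.mp (Bool.and_eq_true_iff.mp e1).2).2).2).2).2).2).2).2).imp (fun a => pos_sound hS (h146 h) a) (fun a => pos_sound hS (h135 h) a))⟩⟩⟩⟩⟩⟩⟩⟩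

def g1 (b : Bx) : Bool := or (pos (t138 b)) (or (pos (t140 b)) (or (pos (t95 b)) (or (pos (t134 b)) (or (pos (t143 b)) (or (pos (t145 b)) (or (pos (t147 b)) (or (pos (t148 b)) (or (pos (t149 b)) (pos (t151 b))))))))))

def l1 (b : Bx) : Nat := cond (g1 b) 0 (l0 b)

def P1 (x1 x2 : ℝ) : Prop := (0 < v138 x1 x2 ∨ 0 < v140 x1 x2 ∨ 0 < v95 x1 x2 ∨ 0 < v134 x1 x2 ∨ 0 < v143 x1 x2 ∨ 0 < v145 x1 x2 ∨ 0 < v147 x1 x2 ∨ 0 < v148 x1 x2 ∨ 0 < v149 x1 x2 ∨ 0 < v151 x1 x2) ∨ (P0 x1 x2)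

theorem l1_sound (h : In b E x1 x2) (e : l1 b = 0) : P1 x1 x2 := by
  unfold l1 at e
  rcases e1 : g1 b with _ | _
  · rw [e1, cond_false] at e
    have z0 : l0 b = 0 := e
    exact Or.inr (l0_sound h z0)
  · exact Or.inl (((Bool.or_eq_true_iff.mp e1).imp (fun a => pos_sound hS (h138 h) a) (fun a => ((Bool.or_eq_true_iff.mp a).imp (fun a => pos_sound hS (h140 h) a) (fun a => ((Bool.or_eq_true_iff.mp a).imp (fun a => pos_sound hS (h95 h) a) (fun a => ((Bool.or_eq_true_iff.mp a).imp (fun a => pos_sound hS (h134 h) a) (fun a => ((Bool.or_eq_true_iff.mp a).imp (fun a => pos_sound hS (h143 h) a) (fun a => ((Bool.or_eq_true_iff.mp a).imp (fun a => pos_sound hS (h145 h) a) (fun a => ((Bool.or_eq_true_iff.mp a).imp (fun a => pos_sound hS (h147 h) a) (fun a => ((Bool.or_eq_true_iff.mp a).imp (fun a => pos_sound hS (h148 h) a) (fun a => ((Bool.or_eq_true_iff.mp a).imp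 (fun a => pos_sound hS (h149 h) a) (fun a => pos_sound hS (h151 h) a)))))))))))))))))))

def f (b : Bx) : Nat := l1 b

/-- the statement -/
def Q (x1 x2 : ℝ) : Prop := P1 x1 x2

theorem f_sound (b : Bx) (hb : f b = 0) (x1 x2 : ℝ) (hm : Mem S b x1 x2) : Q x1 x2 := by
  obtain ⟨E, h⟩ := pt_of_mem hm
  have h : In b E x1 x2 := h
  unfold f at hb
  have e := hb
  have z1 : l1 b = 0 := e
  exact (l1_sound h z1)

/-- the box -/
def b0 : Bx := ⟨232471924, 0, 232471926, 1127428915, 0, 53687093⟩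

theorem chk_all {n : ℕ} {b : Bx} (h : chk f n b = true) (x1 x2 : ℝ) (hm : Mem S b x1 x2) : Q x1 x2 :=
  chk_sound (fun b hb x1 x2 hm => f_sound b hb x1 x2 hm) n b h x1 x2 hm


end Pool.Agent.Strip051.LB.ChA00U_pm_012b
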