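import Pool.Agent.Strip051.LB.ChA00U_pm_012b.Defs
import Pool.Agent.Strip051.LB.Slope
import Pool.Agent.Strip051.LB.Star
import Pool.Agent.Strip051.LB.Cf

/-! # LINE tight chart ChA00U_pm_012b: slopes -/

namespace Pool.Agent.Strip051.LB.ChA00U_pm_012b

open Pool.Agent.Strip051.LB Pool.Agent.Strip051.LB.Fn Pool.Agent.Strip051.LB.Fc Pool.Agent.Strip051.LB.Fd Pool.Agent.StripNear

set_option maxRecDepth 100000
set_option linter.all false

noncomputable def v27 (x1 x2 : ℝ) : ℝ := -(v25 x1 x2)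

noncomputable def v37 (x1 x2 : ℝ) : ℝ := ((2 : ℕ) : ℝ) * v25 x1 x2

noncomputable def v38 (x1 x2 : ℝ) : ℝ := v6 x1 x2 + v37 x1 x2

noncomputable def v41 (x1 x2 : ℝ) : ℝ := v38 x1 x2 * v40 x1 x2

noncomputable def v46 (x1 x2 : ℝ) : ℝ := v41 x1 x2 * v45 x1 x2

noncomputable def v47 (x1 x2 : ℝ) : ℝ := -(v46 x1 x2)

noncomputable def v51 (x1 x2 : ℝ) : ℝ := v50 x1 x2 - v6 x1 x2

noncomputable def v53 (x1 x2 : ℝ) : ℝ := (v19 x1 x2) ^ 2

noncomputable def v55 (x1 x2 : ℝ) : ℝ := v6 x1 x2 - v53 x1 x2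

noncomputable def v56 (x1 x2 : ℝ) : ℝ := -(v54 x1 x2)

noncomputable def v60 (x1 x2 : ℝ) : ℝ := -(v59 x1 x2)

noncomputable def v62 (x1 x2 : ℝ) : ℝ := (v61 x1 x2) ^ 2

noncomputable def v66 (x1 x2 : ℝ) : ℝ := (v65 x1 x2) ^ 2

noncomputable def v68 (x1 x2 : ℝ) : ℝ := v62 x1 x2 + v66 x1 x2

noncomputable def v70 (x1 x2 : ℝ) : ℝ := v68 x1 x2 - v6 x1 x2

noncomputable def v75 (x1 x2 : ℝ) : ℝ := v51 x1 x2 * v71 x1 x2

noncomputable def v76 (x1 x2 : ℝ) : ℝ := v28 x1 x2 + v75 x1 x2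

noncomputable def v86 (x1 x2 : ℝ) : ℝ := v8 x1 x2 * v19 x1 x2

noncomputable def v87 (x1 x2 : ℝ) : ℝ := v26 x1 x2 * v0 x1 x2

noncomputable def v89 (x1 x2 : ℝ) : ℝ := -(v88 x1 x2)

noncomputable def v90 (x1 x2 : ℝ) : ℝ := v86 x1 x2 + v87 x1 x2

noncomputable def v92 (x1 x2 : ℝ) : ℝ := v90 x1 x2 * v83 x1 x2

noncomputable def v94 (x1 x2 : ℝ) : ℝ := v92 x1 x2 - v10 x1 x2

noncomputable def v99 (x1 x2 : ℝ) : ℝ := -(v98 x1 x2)

noncomputable def v116 (x1 x2 : ℝ) : ℝ := -(v115 x1 x2)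

noncomputable def v117 (x1 x2 : ℝ) : ℝ := v104 x1 x2 * v113 x1 x2

noncomputable def v121 (x1 x2 : ℝ) : ℝ := v118 x1 x2 - v119 x1 x2

noncomputable def v122 (x1 x2 : ℝ) : ℝ := -(v117 x1 x2)

noncomputable def v125 (x1 x2 : ℝ) : ℝ := v19 x1 x2 - v4 x1 x2

noncomputable def v152 (x1 x2 : ℝ) : ℝ := v65 x1 x2 - v4 x1 x2

structure Cx (x1 x2 : ℝ) : Prop where
  hc : v8 x1 x2 ^ 2 + x1 ^ 2 = 1
  p24 : 0 < v24 x1 x2
  p57 : 0 < v57 x1 x2
  p73 : 0 < v73 x1 x2
  p74 : 0 < v74 x1 x2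
  p44 : 0 < v44 x1 x2
  p111 : 0 < v111 x1 x2
  p34 : 0 < v34 x1 x2

variable {x1 x2 : ℝ}

theorem s3q (x1 x2 : ℝ) : v3 x1 x2 ^ 2 = 3 := by
  rw [v3]; exact s3sq

theorem s3ne (x1 x2 : ℝ) : v3 x1 x2 ≠ 0 := by
  rw [v3]; positivity

theorem s2 (c : Cx x1 x2) : v2 x1 x2 = v19 x1 x2 + v22 x1 x2 * v6 x1 x2 := by
  simp only [v6, v22]
  (try push_cast)
  ring

theorem s23 (c : Cx x1 x2) : v23 x1 x2 = v53 x1 x2 + v22 x1 x2 * v54 x1 x2 := by
  have a0 : (v2 x1 x2 + v19 x1 x2) * v2 x1 x2 = (v2 x1 x2 + v19 x1 x2) * (v19 x1 x2 + v22 x1 x2 * v6 x1 x2) := congrArg (fun z => (v2 x1 x2 + v19 x1 x2) * z) (s2 c)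
  try simp only [v0, v1, v2, v6, v16, v19, v22, v23, v53, v54] at a0
  simp only [v0, v1, v2, v6, v16, v19, v22, v23, v53, v54]
  (try push_cast at a0 ⊢)
  first | linear_combination a0 | ring | grind

theorem s24 (c : Cx x1 x2) : v24 x1 x2 = v55 x1 x2 + v22 x1 x2 * v56 x1 x2 := by
  have a1 := s23 c
  try simp only [v0, v1, v2, v6, v16, v19, v22, v24, v54, v55, v56] at a1
  simp only [v0, v1, v2, v6, v16, v19, v22, v24, v54, v55, v56]
  (try push_cast at a1 ⊢)
  first | linear_combination -a1 | ring | grind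

theorem q25 (c : Cx x1 x2) : v55 x1 x2 = v26 x1 x2 ^ 2 := by
  have hc := c.hc
  have h3 := s3q x1 x2
  simp only [v0, v4, v6, v12, v14, v16, v18, v19, v26, v53, v55] at hc ⊢
  push_cast at hc ⊢
  grind

theorem s25 (c : Cx x1 x2) : v25 x1 x2 = v26 x1 x2 + v22 x1 x2 * v60 x1 x2 := by
  have a0 := s24 c
  have e : 0 < Real.sqrt (v24 x1 x2) + v26 x1 x2 := by
    have e := c.p57
    simp only [v6, v12, v24, v25, v26, v57] at e ⊢
    push_cast at e ⊢
    linarith
  have b := sl_sqrt a0 (q25 c) (le_of_lt c.p24) e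
  clear a0
  try simp only [v0, v1, v2, v6, v12, v16, v19, v22, v24, v25, v26, v54, v55, v56, v57, v58, v59, v60] at b
  simp only [v0, v1, v2, v6, v12, v16, v19, v22, v24, v25, v26, v54, v55, v56, v57, v58, v59, v60]
  (try push_cast at b ⊢)
  first | linear_combination b | ring | grind

theorem s28 (c : Cx x1 x2) : v28 x1 x2 = v61 x1 x2 + v22 x1 x2 * v59 x1 x2 := by
  have a1 := s25 c
  try simp only [v0, v1, v2, v12, v16, v19, v22, v26, v28, v60, v61] at a1
  simp only [v0, v1, v2, v12, v16, v19, v22, v26, v28, v60, v61]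
  (try push_cast at a1 ⊢)
  first | linear_combination -a1 | ring | grind

theorem s29 (c : Cx x1 x2) : v29 x1 x2 = v65 x1 x2 + v22 x1 x2 * v6 x1 x2 := by
  have a1 := s2 c
  try simp only [v0, v1, v2, v6, v16, v19, v22, v29, v65] at a1
  simp only [v0, v1, v2, v6, v16, v19, v22, v29, v65]
  (try push_cast at a1 ⊢)
  first | linear_combination a1 | ring | grind

theorem s37 (c : Cx x1 x2) : v37 x1 x2 = v97 x1 x2 + v22 x1 x2 * v99 x1 x2 := by
  have a0 := s25 c
  try simp only [v0, v1, v2, v12, v16, v19, v22, v26, v37, v60, v97, v98, v99] at a0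
  simp only [v0, v1, v2, v12, v16, v19, v22, v26, v37, v60, v97, v98, v99]
  (try push_cast at a0 ⊢)
  first | linear_combination (2 : ℝ) * a0 | ring | grind

theorem s38 (c : Cx x1 x2) : v38 x1 x2 = v100 x1 x2 + v22 x1 x2 * v99 x1 x2 := by
  have a1 := s37 c
  try simp only [v0, v1, v2, v6, v12, v16, v19, v22, v26, v37, v38, v97, v98, v99, v100] at a1
  simp only [v0, v1, v2, v6, v12, v16, v19, v22, v26, v37, v38, v97, v98, v99, v100]
  (try push_cast at a1 ⊢)
  first | linear_combination a1 | ring | grind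

theorem s39 (c : Cx x1 x2) : v39 x1 x2 = v101 x1 x2 + v22 x1 x2 * v3 x1 x2 := by
  have a1 : (v3 x1 x2) * v2 x1 x2 = (v3 x1 x2) * (v19 x1 x2 + v22 x1 x2 * v6 x1 x2) := congrArg (fun z => (v3 x1 x2) * z) (s2 c)
  try simp only [v0, v1, v2, v3, v6, v16, v19, v22, v39, v101] at a1
  simp only [v0, v1, v2, v3, v6, v16, v19, v22, v39, v101]
  (try push_cast at a1 ⊢)
  first | linear_combination a1 | ring | grind

theorem s40 (c : Cx x1 x2) : v40 x1 x2 = v102 x1 x2 + v22 x1 x2 * v103 x1 x2 := by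
  have a0 := s39 c
  have a1 := s25 c
  try simp only [v0, v1, v2, v3, v12, v16, v19, v22, v26, v40, v60, v102, v103] at a0
  try simp only [v0, v1, v2, v3, v12, v16, v19, v22, v26, v40, v60, v102, v103] at a1
  simp only [v0, v1, v2, v3, v12, v16, v19, v22, v26, v40, v60, v102, v103]
  (try push_cast at a0 a1 ⊢)
  first | linear_combination a0 - a1 | ring | grind

theorem s41 (c : Cx x1 x2) : v41 x1 x2 = v104 x1 x2 + v22 x1 x2 * v108 x1 x2 := by
  have a0 : (v40 x1 x2) * v38 x1 x2 = (v40 x1 x2) * (v100 x1 x2 + v22 x1 x2 * v99 x1 x2) := congrArg (fun z => (v40 x1 x2) * z) (s38 c)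
  have a1 : (v100 x1 x2) * v40 x1 x2 = (v100 x1 x2) * (v102 x1 x2 + v22 x1 x2 * v103 x1 x2) := congrArg (fun z => (v100 x1 x2) * z) (s40 c)
  try simp only [v0, v1, v2, v3, v6, v12, v16, v19, v22, v26, v37, v38, v40, v41, v97, v98, v99, v100, v102, v103, v104, v105, v107, v108] at a0
  try simp only [v0, v1, v2, v3, v6, v12, v16, v19, v22, v26, v37, v38, v40, v41, v97, v98, v99, v100, v102, v103, v104, v105, v107, v108] at a1
  simp only [v0, v1, v2, v3, v6, v12, v16, v19, v22, v26, v37, v38, v40, v41, v97, v98, v99, v100, v102, v103, v104, v105, v107, v108]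
  (try push_cast at a0 a1 ⊢)
  first | linear_combination a0 + a1 | ring | grind

theorem s42 (c : Cx x1 x2) : v42 x1 x2 = v109 x1 x2 + v22 x1 x2 * v3 x1 x2 := by
  have a1 := s39 c
  try simp only [v0, v1, v2, v3, v6, v16, v19, v22, v42, v109] at a1
  simp only [v0, v1, v2, v3, v6, v16, v19, v22, v42, v109]
  (try push_cast at a1 ⊢)
  first | linear_combination a1 | ring | grind

theorem s43 (c : Cx x1 x2) : v43 x1 x2 = v110 x1 x2 + v22 x1 x2 * v103 x1 x2 := by
  have a0 := s42 c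
  have a1 := s25 c
  try simp only [v0, v1, v2, v3, v6, v12, v16, v19, v22, v26, v42, v43, v60, v103, v109, v110] at a0
  try simp only [v0, v1, v2, v3, v6, v12, v16, v19, v22, v26, v42, v43, v60, v103, v109, v110] at a1
  simp only [v0, v1, v2, v3, v6, v12, v16, v19, v22, v26, v42, v43, v60, v103, v109, v110]
  (try push_cast at a0 a1 ⊢)
  first | linear_combination a0 - a1 | ring | grind

theorem s44 (c : Cx x1 x2) : v44 x1 x2 = v111 x1 x2 + v22 x1 x2 * v112 x1 x2 := by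
  have a0 := s43 c
  try simp only [v0, v1, v2, v3, v6, v12, v16, v19, v22, v26, v42, v43, v44, v103, v109, v110, v111, v112] at a0
  simp only [v0, v1, v2, v3, v6, v12, v16, v19, v22, v26, v42, v43, v44, v103, v109, v110, v111, v112]
  (try push_cast at a0 ⊢)
  first | linear_combination (2 : ℝ) * a0 | ring | grind

theorem s45 (c : Cx x1 x2) : v45 x1 x2 = v113 x1 x2 + v22 x1 x2 * v116 x1 x2 := by
  have a0 := s44 c
  have b := sl_inv a0 (c.p44).ne' (c.p111).ne'
  clear a0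
  try simp only [v0, v1, v2, v3, v6, v12, v16, v19, v22, v26, v42, v43, v44, v45, v103, v109, v110, v111, v112, v113, v114, v115, v116] at b
  simp only [v0, v1, v2, v3, v6, v12, v16, v19, v22, v26, v42, v43, v44, v45, v103, v109, v110, v111, v112, v113, v114, v115, v116]
  (try push_cast at b ⊢)
  first | linear_combination b | ring | grind

theorem s46 (c : Cx x1 x2) : v46 x1 x2 = v117 x1 x2 + v22 x1 x2 * v121 x1 x2 := by
  have a0 : (v45 x1 x2) * v41 x1 x2 = (v45 x1 x2) * (v104 x1 x2 + v22 x1 x2 * v108 x1 x2) := congrArg (fun z => (v45 x1 x2) * z) (s41 c)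
  have a1 : (v104 x1 x2) * v45 x1 x2 = (v104 x1 x2) * (v113 x1 x2 + v22 x1 x2 * v116 x1 x2) := congrArg (fun z => (v104 x1 x2) * z) (s45 c)
  try simp only [v0, v1, v2, v16, v19, v22, v46, v108, v116, v117, v118, v119, v121] at a0
  try simp only [v0, v1, v2, v16, v19, v22, v46, v108, v116, v117, v118, v119, v121] at a1
  simp only [v0, v1, v2, v16, v19, v22, v46, v108, v116, v117, v118, v119, v121]
  (try push_cast at a0 a1 ⊢)
  first | linear_combination a0 + a1 | ring | grind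

theorem s47 (c : Cx x1 x2) : v47 x1 x2 = v122 x1 x2 + v22 x1 x2 * v123 x1 x2 := by
  have a0 := s46 c
  try simp only [v0, v1, v2, v16, v19, v22, v47, v121, v122, v123] at a0
  simp only [v0, v1, v2, v16, v19, v22, v47, v121, v122, v123]
  (try push_cast at a0 ⊢)
  first | linear_combination -a0 | ring | grind

theorem s48 (c : Cx x1 x2) : v48 x1 x2 = v62 x1 x2 + v22 x1 x2 * v64 x1 x2 := by
  have a0 : (v28 x1 x2 + v61 x1 x2) * v28 x1 x2 = (v28 x1 x2 + v61 x1 x2) * (v61 x1 x2 + v22 x1 x2 * v59 x1 x2) := congrArg (fun z => (v28 x1 x2 + v61 x1 x2) * z) (s28 c)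
  try simp only [v0, v1, v2, v12, v16, v19, v22, v26, v28, v48, v61, v62, v63, v64] at a0
  simp only [v0, v1, v2, v12, v16, v19, v22, v26, v28, v48, v61, v62, v63, v64]
  (try push_cast at a0 ⊢)
  first | linear_combination a0 | ring | grind

theorem s49 (c : Cx x1 x2) : v49 x1 x2 = v66 x1 x2 + v22 x1 x2 * v67 x1 x2 := by
  have a0 : (v29 x1 x2 + v65 x1 x2) * v29 x1 x2 = (v29 x1 x2 + v65 x1 x2) * (v65 x1 x2 + v22 x1 x2 * v6 x1 x2) := congrArg (fun z => (v29 x1 x2 + v65 x1 x2) * z) (s29 c)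
  try simp only [v0, v1, v2, v6, v16, v19, v22, v29, v49, v65, v66, v67] at a0
  simp only [v0, v1, v2, v6, v16, v19, v22, v29, v49, v65, v66, v67]
  (try push_cast at a0 ⊢)
  first | linear_combination a0 | ring | grind

theorem s50 (c : Cx x1 x2) : v50 x1 x2 = v68 x1 x2 + v22 x1 x2 * v69 x1 x2 := by
  have a0 := s48 c
  have a1 := s49 c
  try simp only [v0, v1, v2, v16, v19, v22, v29, v50, v65, v67, v68, v69] at a0
  try simp only [v0, v1, v2, v16, v19, v22, v29, v50, v65, v67, v68, v69] at a1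
  simp only [v0, v1, v2, v16, v19, v22, v29, v50, v65, v67, v68, v69]
  (try push_cast at a0 a1 ⊢)
  first | linear_combination a0 + a1 | ring | grind

theorem s51 (c : Cx x1 x2) : v51 x1 x2 = v70 x1 x2 + v22 x1 x2 * v69 x1 x2 := by
  have a0 := s50 c
  try simp only [v0, v1, v2, v6, v16, v19, v22, v29, v50, v51, v65, v67, v68, v69, v70] at a0
  simp only [v0, v1, v2, v6, v16, v19, v22, v29, v50, v51, v65, v67, v68, v69, v70]
  (try push_cast at a0 ⊢)
  first | linear_combination a0 | ring | grind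

theorem s79 (c : Cx x1 x2) : v79 x1 x2 = v86 x1 x2 + v22 x1 x2 * v8 x1 x2 := by
  have a1 : (v8 x1 x2) * v2 x1 x2 = (v8 x1 x2) * (v19 x1 x2 + v22 x1 x2 * v6 x1 x2) := congrArg (fun z => (v8 x1 x2) * z) (s2 c)
  try simp only [v0, v1, v2, v6, v16, v19, v22, v79, v86] at a1
  simp only [v0, v1, v2, v6, v16, v19, v22, v79, v86]
  (try push_cast at a1 ⊢)
  first | linear_combination a1 | ring | grind

theorem s80 (c : Cx x1 x2) : v80 x1 x2 = v87 x1 x2 + v22 x1 x2 * v89 x1 x2 := by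
  have a0 : (v0 x1 x2) * v25 x1 x2 = (v0 x1 x2) * (v26 x1 x2 + v22 x1 x2 * v60 x1 x2) := congrArg (fun z => (v0 x1 x2) * z) (s25 c)
  try simp only [v0, v1, v2, v12, v16, v19, v22, v26, v60, v80, v87, v88, v89] at a0
  simp only [v0, v1, v2, v12, v16, v19, v22, v26, v60, v80, v87, v88, v89]
  (try push_cast at a0 ⊢)
  first | linear_combination a0 | ring | grind

theorem s82 (c : Cx x1 x2) : v82 x1 x2 = v90 x1 x2 + v22 x1 x2 * v91 x1 x2 := by
  have a0 := s79 c
  have a1 := s80 c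
  try simp only [v0, v1, v2, v16, v19, v22, v82, v89, v90, v91] at a0
  try simp only [v0, v1, v2, v16, v19, v22, v82, v89, v90, v91] at a1
  simp only [v0, v1, v2, v16, v19, v22, v82, v89, v90, v91]
  (try push_cast at a0 a1 ⊢)
  first | linear_combination a0 + a1 | ring | grind

theorem s84 (c : Cx x1 x2) : v84 x1 x2 = v92 x1 x2 + v22 x1 x2 * v93 x1 x2 := by
  have a0 : (v83 x1 x2) * v82 x1 x2 = (v83 x1 x2) * (v90 x1 x2 + v22 x1 x2 * v91 x1 x2) := congrArg (fun z => (v83 x1 x2) * z) (s82 c)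
  try simp only [v0, v1, v2, v16, v19, v22, v82, v84, v90, v91, v92, v93] at a0
  simp only [v0, v1, v2, v16, v19, v22, v82, v84, v90, v91, v92, v93]
  (try push_cast at a0 ⊢)
  first | linear_combination a0 | ring | grind

theorem s85 (c : Cx x1 x2) : v85 x1 x2 = v94 x1 x2 + v22 x1 x2 * v93 x1 x2 := by
  have a0 := s84 c
  try simp only [v0, v1, v2, v10, v16, v19, v22, v85, v94] at a0
  simp only [v0, v1, v2, v10, v16, v19, v22, v85, v94]
  (try push_cast at a0 ⊢)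
  first | linear_combination a0 | ring | grind

theorem s95 (c : Cx x1 x2) : v95 x1 x2 = v125 x1 x2 + v22 x1 x2 * v6 x1 x2 := by
  have a0 := s2 c
  try simp only [v0, v1, v2, v3, v4, v6, v16, v19, v22, v95, v125] at a0
  simp only [v0, v1, v2, v3, v4, v6, v16, v19, v22, v95, v125]
  (try push_cast at a0 ⊢)
  first | linear_combination a0 | ring | grind

theorem s96 (c : Cx x1 x2) : v96 x1 x2 = v152 x1 x2 + v22 x1 x2 * v6 x1 x2 := by
  have a0 := s29 c
  try simp only [v0, v1, v2, v3, v4, v6, v16, v19, v22, v29, v65, v96, v152] at a0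
  simp only [v0, v1, v2, v3, v4, v6, v16, v19, v22, v29, v65, v96, v152]
  (try push_cast at a0 ⊢)
  first | linear_combination a0 | ring | grind

theorem bD (c : Cx x1 x2) : v70 x1 x2 = 0 := by
  have hc := c.hc
  have h3 := s3q x1 x2
  simp only [v0, v4, v6, v12, v14, v16, v18, v19, v26, v61, v62, v65, v66, v68, v70] at hc ⊢
  push_cast at hc ⊢
  grind

theorem sD (c : Cx x1 x2) : v51 x1 x2 = v22 x1 x2 * v69 x1 x2 := by
  have h := s51 c
  rw [bD c, zero_add] at h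
  exact h

theorem s76 (c : Cx x1 x2) : v76 x1 x2 = v61 x1 x2 + v22 x1 x2 * v78 x1 x2 := by
  have hA := s28 c
  have hd := sD c
  have hK : v71 x1 x2 * v51 x1 x2 = v71 x1 x2 * (v22 x1 x2 * v69 x1 x2) := congrArg (fun z => v71 x1 x2 * z) hd
  try simp only [v0, v1, v2, v6, v12, v16, v19, v22, v26, v28, v29, v50, v51, v61, v65, v67, v69, v75, v76, v77, v78] at hA
  try simp only [v0, v1, v2, v6, v12, v16, v19, v22, v26, v28, v29, v50, v51, v61, v65, v67, v69, v75, v76, v77, v78] at hK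
  simp only [v0, v1, v2, v6, v12, v16, v19, v22, v26, v28, v29, v50, v51, v61, v65, v67, v69, v75, v76, v77, v78]
  (try push_cast at hA hK ⊢)
  first | linear_combination (hA + hK) | grind

theorem bE (c : Cx x1 x2) : v94 x1 x2 = 0 := by
  have hc := c.hc
  have h3 := s3q x1 x2
  have g0 : v3 x1 x2 ≠ 0 := s3ne x1 x2
  simp only [v0, v4, v10, v12, v14, v16, v18, v19, v26, v83, v86, v87, v90, v92, v94] at hc ⊢
  push_cast at hc ⊢
  grind

theorem hE (c : Cx x1 x2) : v85 x1 x2 = v22 x1 x2 * v93 x1 x2 := by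
  have h := s85 c
  rw [bE c, zero_add] at h
  exact h

theorem bS (c : Cx x1 x2) : v61 x1 x2 - v36 x1 x2 - v122 x1 x2 = 0 := by
  have hc := c.hc
  have h3 := s3q x1 x2
  have g0 := (c.p34).ne'
  have g1 := (c.p111).ne'
  simp only [v0, v4, v6, v12, v14, v16, v18, v19, v26, v30, v31, v32, v33, v34, v35, v36, v61, v97, v100, v101, v102, v104, v109, v110, v111, v113, v117, v122] at hc g0 g1 ⊢
  push_cast at hc g0 g1 ⊢
  grind

theorem hS (c : Cx x1 x2) : v76 x1 x2 - v36 x1 x2 - v47 x1 x2 = v22 x1 x2 * v124 x1 x2 := by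
  have a3 := s76 c
  have a2 := s47 c
  have b := bS c
  try simp only [v0, v1, v2, v12, v16, v19, v22, v26, v28, v47, v61, v76, v78, v122, v123, v124] at a3
  try simp only [v0, v1, v2, v12, v16, v19, v22, v26, v28, v47, v61, v76, v78, v122, v123, v124] at a2
  try simp only [v0, v1, v2, v12, v16, v19, v22, v26, v28, v47, v61, v76, v78, v122, v123, v124] at b
  try simp only [v0, v1, v2, v12, v16, v19, v22, v26, v28, v47, v61, v76, v78, v122, v123, v124]
  (try push_cast at a3 a2 b ⊢)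
  first | linear_combination a3 - a2 + b | grind

theorem bC (c : Cx x1 x2) : v0 x1 x2 * v122 x1 x2 - v125 x1 x2 * v36 x1 x2 = 0 := by
  have hc := c.hc
  have h3 := s3q x1 x2
  have g0 := (c.p34).ne'
  have g1 := (c.p111).ne'
  simp only [v0, v4, v6, v12, v14, v16, v18, v19, v26, v30, v31, v32, v33, v34, v35, v36, v97, v100, v101, v102, v104, v109, v110, v111, v113, v117, v122, v125] at hc g0 g1 ⊢
  push_cast at hc g0 g1 ⊢
  grind

theorem hC (c : Cx x1 x2) : v0 x1 x2 * v47 x1 x2 - v95 x1 x2 * v36 x1 x2 = v22 x1 x2 * v127 x1 x2 := by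
  have a2 : v0 x1 x2 * v47 x1 x2 = v0 x1 x2 * (v122 x1 x2 + v22 x1 x2 * v123 x1 x2) := congrArg (fun z => v0 x1 x2 * z) (s47 c)
  have a3 : v36 x1 x2 * v95 x1 x2 = v36 x1 x2 * (v125 x1 x2 + v22 x1 x2 * v6 x1 x2) := congrArg (fun z => v36 x1 x2 * z) (s95 c)
  have b := bC c
  try simp only [v0, v1, v2, v3, v4, v6, v16, v19, v22, v47, v95, v122, v123, v125, v126, v127] at a2
  try simp only [v0, v1, v2, v3, v4, v6, v16, v19, v22, v47, v95, v122, v123, v125, v126, v127] at a3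
  try simp only [v0, v1, v2, v3, v4, v6, v16, v19, v22, v47, v95, v122, v123, v125, v126, v127] at b
  simp only [v0, v1, v2, v3, v4, v6, v16, v19, v22, v47, v95, v122, v123, v125, v126, v127]
  (try push_cast at a2 a3 b ⊢)
  first | linear_combination a2 - a3 + b | grind

theorem hT (x1 x2 : ℝ) : v96 x1 x2 = v0 x1 x2 + v95 x1 x2 := by
  simp only [v0, v1, v2, v3, v4, v29, v95, v96]
  push_cast
  ring

theorem hG (c : Cx x1 x2) : (-v95 x1 x2) * v76 x1 x2 - v96 x1 x2 * (-v47 x1 x2) = v22 x1 x2 * v129 x1 x2 := by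
  have b := hC c
  have m0 : v95 x1 x2 * (v76 x1 x2 - v36 x1 x2 - v47 x1 x2) = v95 x1 x2 * (v22 x1 x2 * v124 x1 x2) := congrArg (fun z => v95 x1 x2 * z) (hS c)
  have m1 : v47 x1 x2 * v96 x1 x2 = v47 x1 x2 * (v0 x1 x2 + v95 x1 x2) := congrArg (fun z => v47 x1 x2 * z) (hT x1 x2)
  try simp only [v0, v1, v2, v3, v4, v16, v19, v22, v28, v29, v47, v76, v78, v95, v96, v123, v124, v127, v128, v129] at b
  try simp only [v0, v1, v2, v3, v4, v16, v19, v22, v28, v29, v47, v76, v78, v95, v96, v123, v124, v127, v128, v129] at m0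
  try simp only [v0, v1, v2, v3, v4, v16, v19, v22, v28, v29, v47, v76, v78, v95, v96, v123, v124, v127, v128, v129] at m1
  try simp only [v0, v1, v2, v3, v4, v16, v19, v22, v28, v29, v47, v76, v78, v95, v96, v123, v124, v127, v128, v129]
  (try push_cast at b m0 m1 ⊢)
  first | linear_combination b - m0 + m1 | grind

theorem core (c : Cx x1 x2) (hW : 0 ≤ v22 x1 x2) (hWQ : 0 ≤ v22 x1 x2 * v135 x1 x2) (h1 : 0 ≤ v96 x1 x2) (h2 : 0 ≤ (-v95 x1 x2)) (h3 : v96 x1 x2 + (-v95 x1 x2) ≤ Pool.Agent.StripNear.h0) :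
    0 ≤ starn_v (v85 x1 x2) (v96 x1 x2) ((-v95 x1 x2)) (v76 x1 x2) ((-v47 x1 x2)) (v36 x1 x2) := by
  have hD : v76 x1 x2 + (-v47 x1 x2) - v36 x1 x2 = v22 x1 x2 * v124 x1 x2 := by
    have b := hS c
    linear_combination b
  have k := starn_ge hW h1 h2 h3 (hE c) hD (hG c)
  have f1 : (-v95 x1 x2) = v132 x1 x2 := by
    simp only [v0, v1, v2, v3, v4, v29, v95, v96, v132]
    try (push_cast; ring)
  refine le_trans hWQ (le_trans (le_of_eq ?_) k)
  rw [v135]
  rw [f1]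

end Pool.Agent.Strip051.LB.ChA00U_pm_012b
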